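import Pool.Agent.Q69.Cyl

/-!
# MP_8a65de_an: an `ω_{𝒩_T}`-limit set that is not an `ω`-limit set

The system is the spacing shift on `{0,1,2}^ℕ` in which two symbols `2` never occur at a distance
within `k` of `4^k`; the point is the sequence of the parities of `⌊log₄ n⌋`.
-/

set_option autoImplicit false
open Filter Topology Set

namespace Pool.Agent.Results.MP_8a65de_an.NotOmegaLimit

open Q69.Cyl

/-- `N_T(U, V) = {n ≥ 0 : U ∩ T⁻ⁿ V ≠ ∅}`. -/
def NN {X : Type} (T : X → X) (U V : Set X) : Set ℕ := {n | (U ∩ T^[n] ⁻¹' V).Nonempty}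

/-- The family `𝒩_T`: all sets containing some `N_T(U, V)` with `U, V` nonempty and open. -/
def family {X : Type} [TopologicalSpace X] (T : X → X) : Set (Set ℕ) :=
  {A | ∃ U V : Set X, IsOpen U ∧ U.Nonempty ∧ IsOpen V ∧ V.Nonempty ∧ NN T U V ⊆ A}

/-- `ω_{𝒩_T}(x)`: the intersection over `F ∈ 𝒩_T` of the closures of `{T^i x : i ∈ F}`. -/
def omegaN {X : Type} [TopologicalSpace X] (T : X → X) (x : X) : Set X :=
  ⋂ F ∈ family T, closure ((fun i : ℕ => T^[i] x) '' F)

/-- The usual omega-limit set `⋂_{n ≥ 1} closure {T^k y : k ≥ n}`. -/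
def omega {X : Type} [TopologicalSpace X] (T : X → X) (y : X) : Set X :=
  ⋂ n : ℕ, ⋂ (_ : 1 ≤ n), closure {z | ∃ k, n ≤ k ∧ T^[k] y = z}

/-- Topological weak mixing: `(X × X, T × T)` is topologically transitive. -/
def WeaklyMixing {X : Type} [TopologicalSpace X] (T : X → X) : Prop :=
  ∀ W₁ W₂ : Set (X × X), IsOpen W₁ → W₁.Nonempty → IsOpen W₂ → W₂.Nonempty →
    (NN (Prod.map T T) W₁ W₂).Nonempty

/-! ### The spacing shift -/

/-- forbidden distances -/
def BB : Set ℕ := {n | ∃ k : ℕ, 1 ≤ k ∧ n ≤ 4 ^ k + k ∧ 4 ^ k ≤ n + k}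

/-- the space -/
def XX : Set (ℕ → Fin 3) := {z | ∀ i k, i < k → z i = 2 → z k = 2 → k - i ∉ BB}

lemma XX_closed : IsClosed XX := by
  rw [isClosed_iff_cyl]
  intro x h i k hik hi hk
  obtain ⟨y, hy, hyx⟩ := h (k + 1)
  exact hy i k hik (by rw [hyx i (by omega)]; exact hi) (by rw [hyx k (by omega)]; exact hk)

lemma XX_shift : ∀ x ∈ XX, (fun k => x (k + 1)) ∈ XX := by
  intro x hx i k hik hi hk
  have := hx (i + 1) (k + 1) (by omega) hi hk
  rwa [show k + 1 - (i + 1) = k - i by omega] at this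

/-- the shift -/
abbrev TT : XX → XX := shiftOn XX_shift

lemma TT_iter (n : ℕ) (x : XX) (i : ℕ) : (TT^[n] x).1 i = x.1 (i + n) :=
  shiftOn_iter XX_shift n x i

/-- the middle times `2 · 4^k` are far from forbidden distances -/
lemma mid {k L t : ℕ} (hk : L + 2 ≤ k) (ht1 : 2 * 4 ^ k ≤ t + L) (ht2 : t ≤ 2 * 4 ^ k + L) :
    t ∉ BB := by
  rintro ⟨m, hm1, hm2, hm3⟩
  have hpow : 2 * k < 4 ^ k := by
    have h1 : k < 2 ^ k := Nat.lt_two_pow_self
    have h2 : 2 ≤ 2 ^ k := by
      calc 2 = 2 ^ 1 := by norm_num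
        _ ≤ 2 ^ k := Nat.pow_le_pow_right (by norm_num) (by omega)
    have h3 : 4 ^ k = 2 ^ k * 2 ^ k := by rw [← mul_pow]; norm_num
    rw [h3]
    calc 2 * k < 2 * 2 ^ k := by omega
      _ ≤ 2 ^ k * 2 ^ k := Nat.mul_le_mul_right _ h2
  rcases Nat.lt_or_ge k m with h | h
  · -- `4^m - m ≥ 4^(k+1) - (k+1)`
    have h1 : ∀ d, 4 ^ (k + 1) + d + (k + 1) ≤ 4 ^ (k + 1 + d) + (k + 1) := by
      intro d
      induction d with
      | zero => simp
      | succ d ih =>
        have : 1 ≤ 4 ^ (k + 1 + d) := Nat.one_le_pow _ _ (by norm_num)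
        rw [show k + 1 + (d + 1) = (k + 1 + d) + 1 by ring, pow_succ]
        omega
    obtain ⟨d, rfl⟩ := Nat.exists_eq_add_of_le (show k + 1 ≤ m from h)
    have h2 := h1 d
    have h3 : 4 ^ (k + 1) = 4 * 4 ^ k := by ring
    omega
  · have h1 : 4 ^ m ≤ 4 ^ k := Nat.pow_le_pow_right (by norm_num) h
    omega

/-- gluing two points -/
def glue (a c : ℕ → Fin 3) (L n : ℕ) : ℕ → Fin 3 := fun i =>
  if i < L then a i else if n ≤ i ∧ i < n + L then c (i - n) else 0

lemma glue_mem {a c : ℕ → Fin 3} (ha : a ∈ XX) (hc : c ∈ XX) {L n : ℕ} (hLn : L ≤ n)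
    (hn : ∀ t, n ≤ t + L → t ≤ n + L → t ∉ BB) : glue a c L n ∈ XX := by
  intro i k hik hi hk
  simp only [glue] at hi hk
  split_ifs at hi hk with h1 h2 h3 h4 h5
  · exact ha i k hik hi hk
  · exact hn _ (by omega) (by omega)
  · exact absurd hk (by decide)
  · omega
  · have := hc (i - n) (k - n) (by omega) hi hk
    rwa [show k - n - (i - n) = k - i by omega] at this
  · exact absurd hk (by decide)
  · exact absurd hi (by decide)
  · exact absurd hi (by decide)
  · exact absurd hi (by decide)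

lemma glue_left {a c : ℕ → Fin 3} {L n i : ℕ} (hi : i < L) : glue a c L n i = a i := if_pos hi

lemma glue_right {a c : ℕ → Fin 3} {L n i : ℕ} (hLn : L ≤ n) (hi : i < L) :
    glue a c L n (i + n) = c i := by
  unfold glue
  rw [if_neg (by omega), if_pos (by omega)]
  congr 1; omega

/-- the middle times are return times -/
lemma mid_mem {U V : Set XX} (hU : IsOpen U) (hUne : U.Nonempty) (hV : IsOpen V)
    (hVne : V.Nonempty) : ∃ K, ∀ k, K ≤ k → 2 * 4 ^ k ∈ NN TT U V := by
  obtain ⟨a, ha⟩ := hUne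
  obtain ⟨c, hc⟩ := hVne
  obtain ⟨L1, hL1⟩ := nhds_cyl (hU.mem_nhds ha)
  obtain ⟨L2, hL2⟩ := nhds_cyl (hV.mem_nhds hc)
  set L := max L1 L2 with hL
  refine ⟨L + 2, fun k hk => ?_⟩
  have hpow : k < 4 ^ k := Nat.lt_pow_self (by norm_num)
  have hLn : L ≤ 2 * 4 ^ k := by omega
  have hg := glue_mem a.2 c.2 hLn (fun t h1 h2 => mid hk h1 h2)
  refine ⟨⟨_, hg⟩, ?_, ?_⟩
  · apply hL1
    intro i hi
    exact glue_left (by omega)
  · rw [mem_preimage]
    apply hL2
    intro i hi
    rw [TT_iter]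
    exact glue_right hLn (by omega)

lemma weak_mixing : WeaklyMixing TT := by
  intro W₁ W₂ hW₁ hW₁ne hW₂ hW₂ne
  obtain ⟨⟨a, a'⟩, ha⟩ := hW₁ne
  obtain ⟨⟨c, c'⟩, hc⟩ := hW₂ne
  obtain ⟨A, A', hA, hA', haA, haA', hAA⟩ := isOpen_prod_iff.1 hW₁ a a' ha
  obtain ⟨C, C', hC, hC', hcC, hcC', hCC⟩ := isOpen_prod_iff.1 hW₂ c c' hc
  obtain ⟨K1, hK1⟩ := mid_mem hA ⟨a, haA⟩ hC ⟨c, hcC⟩
  obtain ⟨K2, hK2⟩ := mid_mem hA' ⟨a', haA'⟩ hC' ⟨c', hcC'⟩
  obtain ⟨z, hz1, hz2⟩ := hK1 (max K1 K2) (le_max_left _ _)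
  obtain ⟨z', hz1', hz2'⟩ := hK2 (max K1 K2) (le_max_right _ _)
  refine ⟨2 * 4 ^ max K1 K2, (z, z'), hAA ⟨hz1, hz1'⟩, ?_⟩
  rw [mem_preimage]
  apply hCC
  rw [Prod.map_iterate]
  exact ⟨hz2, hz2'⟩

/-- the point `x`: parities of `⌊log₄ n⌋` -/
def xx : XX := ⟨fun n => if Even (Nat.log 4 n) then 0 else 1, by
  intro i k _ hi
  have hi' : (if Even (Nat.log 4 i) then (0 : Fin 3) else 1) = 2 := hi
  split_ifs at hi'
  · exact absurd hi' (by decide)
  · exact absurd hi' (by decide)⟩

/-- constant points -/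
def cst (c : Fin 3) (hc : c ≠ 2) : XX := ⟨fun _ => c, fun _ _ _ hi => absurd hi hc⟩

/-- for forbidden-free times the point looks constant -/
lemma log_const {L n i : ℕ} (hn : 4 ^ L < n) (hnB : n ∉ BB) (hi : i < L) :
    Nat.log 4 (i + n) = Nat.log 4 n := by
  have hn0 : n ≠ 0 := Nat.ne_of_gt (lt_of_le_of_lt (Nat.zero_le _) hn)
  apply Nat.log_eq_of_pow_le_of_lt_pow
  · exact (Nat.pow_log_le_self 4 hn0).trans (by omega)
  · by_contra hcon
    push Not at hcon
    set k := Nat.log 4 n + 1 with hk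
    have h1 : n < 4 ^ k := Nat.lt_pow_succ_log_self (by norm_num) n
    have hLk : L < k := by
      by_contra h
      push Not at h
      have : 4 ^ k ≤ 4 ^ L := Nat.pow_le_pow_right (by norm_num) h
      omega
    exact hnB ⟨k, by omega, by omega, by omega⟩

lemma exists_family (M : ℕ) : ∃ F ∈ family TT, ∀ n ∈ F, M < n ∧ n ∉ BB := by
  have h1B : (1 : ℕ) ∉ BB := by
    rintro ⟨k, hk1, -, hk3⟩
    have : ∀ k, 1 ≤ k → 1 + k < 4 ^ k := by
      intro k hk
      induction k, hk using Nat.le_induction with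
      | base => norm_num
      | succ k hk ih => rw [pow_succ]; omega
    have := this k hk1
    omega
  let a : ℕ → Fin 3 := fun i => if i = 0 then 2 else 0
  let c : ℕ → Fin 3 := fun i => if i = 0 then 2 else 1
  have ha : a ∈ XX := by
    intro i k hik hi hk
    simp only [a] at hi hk
    split_ifs at hi hk with h1 h2
    all_goals first | omega | exact absurd hi (by decide) | exact absurd hk (by decide)
  have hc : c ∈ XX := by
    intro i k hik hi hk
    simp only [c] at hi hk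
    split_ifs at hi hk with h1 h2
    all_goals first | omega | exact absurd hi (by decide) | exact absurd hk (by decide)
  let U : Set XX := {y | ∀ i < M + 2, y.1 i = a i}
  let V : Set XX := {y | ∀ i < 2, y.1 i = c i}
  refine ⟨NN TT U V, ⟨U, V, (isClopen_cyl XX a (M + 2)).2, ⟨⟨a, ha⟩, fun i _ => rfl⟩,
    (isClopen_cyl XX c 2).2, ⟨⟨c, hc⟩, fun i _ => rfl⟩, subset_rfl⟩, ?_⟩
  rintro n ⟨z, hz1, hz2⟩
  rw [mem_preimage] at hz2
  have e0 := hz2 0 (by norm_num)
  have e1 := hz2 1 (by norm_num)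
  rw [TT_iter] at e0 e1
  rw [zero_add] at e0
  have hz0 := hz1 0 (by omega)
  have hnM : M < n := by
    by_contra hcon
    push Not at hcon
    rcases Nat.eq_zero_or_pos n with h | h
    · subst h
      have := hz1 1 (by omega)
      rw [add_zero] at e1
      rw [this] at e1
      simp [a, c] at e1
    · have := hz1 n (by omega)
      rw [this] at e0
      simp [a, c, Nat.pos_iff_ne_zero.1 h] at e0
  refine ⟨hnM, ?_⟩
  have := z.2 0 n (by omega) (by simpa [a] using hz0) (by simpa [c] using e0)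
  simpa using this

lemma omegaN_sub {z : XX} (hz : z ∈ omegaN TT xx) :
    z = cst 0 (by decide) ∨ z = cst 1 (by decide) := by
  -- `z i = z 0 ∈ {0, 1}` for all `i`
  have key : ∀ i, z.1 i = z.1 0 ∧ (z.1 0 = 0 ∨ z.1 0 = 1) := by
    intro i
    obtain ⟨F, hF, hFn⟩ := exists_family (4 ^ (i + 1))
    have h1 : z ∈ closure ((fun i : ℕ => TT^[i] xx) '' F) := by
      have := mem_iInter.1 hz F
      exact mem_iInter.1 this hF
    obtain ⟨y, ⟨n, hn, rfl⟩, hy⟩ := mem_closure_cyl.1 h1 (i + 1)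
    obtain ⟨hn1, hn2⟩ := hFn n hn
    have e1 := hy i (by omega)
    have e0 := hy 0 (by omega)
    rw [TT_iter] at e1 e0
    have l1 := log_const (L := i + 1) hn1 hn2 (i := i) (by omega)
    have l0 := log_const (L := i + 1) hn1 hn2 (i := 0) (by omega)
    simp only [xx] at e0 e1
    rw [l1] at e1
    rw [l0] at e0
    rw [← e1, ← e0]
    refine ⟨rfl, ?_⟩
    split_ifs
    · exact Or.inl rfl
    · exact Or.inr rfl
  rcases (key 0).2 with h | h
  · left
    apply Subtype.ext
    funext i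
    rw [(key i).1, h]; rfl
  · right
    apply Subtype.ext
    funext i
    rw [(key i).1, h]; rfl

lemma mem_omegaN (c : Fin 3) (hc : c ≠ 2) (hc' : c = 0 ∨ c = 1) : cst c hc ∈ omegaN TT xx := by
  simp only [omegaN, mem_iInter]
  rintro F ⟨U, V, hU, hUne, hV, hVne, hUV⟩
  rw [mem_closure_cyl]
  intro L
  obtain ⟨K, hK⟩ := mid_mem hU hUne hV hVne
  -- the parity
  obtain ⟨k, hk1, hk2, hk3⟩ : ∃ k, K ≤ k ∧ L ≤ k ∧ (if Even k then (0 : Fin 3) else 1) = c := by
    rcases hc' with h | h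
    · refine ⟨2 * (K + L), by omega, by omega, ?_⟩
      rw [if_pos (even_two_mul _), h]
    · refine ⟨2 * (K + L) + 1, by omega, by omega, ?_⟩
      rw [if_neg (by simp), h]
  refine ⟨_, ⟨2 * 4 ^ k, hUV (hK k hk1), rfl⟩, ?_⟩
  intro i hi
  rw [TT_iter]
  change (if Even (Nat.log 4 (i + 2 * 4 ^ k)) then (0 : Fin 3) else 1) = c
  have hpow : k < 4 ^ k := Nat.lt_pow_self (by norm_num)
  have : Nat.log 4 (i + 2 * 4 ^ k) = k := by
    apply Nat.log_eq_of_pow_le_of_lt_pow
    · omega
    · rw [pow_succ]; omega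
  rw [this, hk3]

lemma not_omega (y : XX) (h0 : cst 0 (by decide) ∈ omega TT y) (h1 : cst 1 (by decide) ∈ omega TT y)
    (h : ∀ z ∈ omega TT y, z = cst 0 (by decide) ∨ z = cst 1 (by decide)) : False := by
  haveI : CompactSpace XX := isCompact_iff_compactSpace.1 XX_closed.isCompact
  -- the bad set
  set Bad : Set XX := {z | z.1 0 = z.1 1}ᶜ with hBad
  have hBadc : IsClosed Bad := by
    rw [isClosed_compl_iff]
    have : {z : XX | z.1 0 = z.1 1} = ⋃ c : Fin 3, ({z : XX | z.1 0 ∈ ({c} : Set (Fin 3))} ∩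
        {z : XX | z.1 1 ∈ ({c} : Set (Fin 3))}) := by
      ext z; simp [eq_comm]
    rw [this]
    exact isOpen_iUnion fun c => (isClopen_coord XX 0 _).2.inter (isClopen_coord XX 1 _).2
  have hev : ∃ n, ∀ k, n ≤ k → TT^[k] y ∉ Bad := by
    by_contra hcon
    push Not at hcon
    have hne : (⋂ n : ℕ, (closure {z | ∃ k, n ≤ k ∧ TT^[k] y = z} ∩ Bad)).Nonempty := by
      apply IsCompact.nonempty_iInter_of_sequence_nonempty_isCompact_isClosed
      · intro n
        apply inter_subset_inter_left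
        apply closure_mono
        rintro z ⟨k, hk, hz⟩
        exact ⟨k, by omega, hz⟩
      · intro n
        obtain ⟨k, hk, hb⟩ := hcon n
        exact ⟨_, subset_closure ⟨k, hk, rfl⟩, hb⟩
      · exact (isClosed_closure.inter hBadc).isCompact
      · intro n; exact isClosed_closure.inter hBadc
    obtain ⟨z, hz⟩ := hne
    rw [mem_iInter] at hz
    have hzω : z ∈ omega TT y := by
      simp only [omega, mem_iInter]
      intro n _
      exact (hz n).1
    rcases h z hzω with rfl | rfl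
    · exact (hz 0).2 rfl
    · exact (hz 0).2 rfl
  obtain ⟨n, hn⟩ := hev
  have hconst : ∀ d, y.1 (n + d) = y.1 n := by
    intro d
    induction d with
    | zero => rfl
    | succ d ih =>
      have := hn (n + d) (by omega)
      rw [hBad, mem_compl_iff, not_not] at this
      have h2 : (TT^[n + d] y).1 0 = (TT^[n + d] y).1 1 := this
      rw [TT_iter, TT_iter] at h2
      rw [← ih, show n + (d + 1) = 1 + (n + d) by ring, ← h2, zero_add]
  -- both constants are limit points
  have hval : ∀ (c : Fin 3) (hc : c ≠ 2), cst c hc ∈ omega TT y → y.1 n = c := by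
    intro c hc hmem
    simp only [omega, mem_iInter] at hmem
    have h2 := hmem (n + 1) (by omega)
    obtain ⟨w, ⟨k, hk, rfl⟩, hw⟩ := mem_closure_cyl.1 h2 1
    have := hw 0 (by omega)
    rw [TT_iter, zero_add] at this
    obtain ⟨d, rfl⟩ := Nat.exists_eq_add_of_le (show n ≤ k by omega)
    rw [hconst] at this
    exact this
  have e0 := hval 0 _ h0
  have e1 := hval 1 _ h1
  rw [e0] at e1
  exact absurd e1 (by decide)

/-- There are a weakly mixing system `(X, T)` (`X` a compact metric space with more than one point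
and without isolated points, `T` a continuous surjection) and a point `x` such that
`ω_{𝒩_T}(x) ≠ ω_T(y)` for every `y ∈ X`. -/
theorem result : ∃ (X : Type) (_ : MetricSpace X) (_ : CompactSpace X) (T : X → X),
    Nontrivial X ∧ (∀ x : X, ¬ IsOpen ({x} : Set X)) ∧ Continuous T ∧ Function.Surjective T ∧
    WeaklyMixing T ∧ ∃ x : X, ∀ y : X, omegaN T x ≠ omega T y := by
  refine ⟨XX, TopologicalSpace.metrizableSpaceMetric XX,
    isCompact_iff_compactSpace.1 XX_closed.isCompact, TT, ?_, ?_, shiftOn_cont _, ?_, weak_mixing,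
    xx, ?_⟩
  · refine ⟨cst 0 (by decide), cst 1 (by decide), fun h => ?_⟩
    have := congrArg (fun z : XX => z.1 0) h
    simp [cst] at this
  · intro x hx
    obtain ⟨L, hL⟩ := isOpen_iff_cyl.1 hx x rfl
    -- change a coordinate beyond `L` to something else
    let y : Fin 3 → (ℕ → Fin 3) := fun c i => if i < L then x.1 i else c
    have hy : ∀ c : Fin 3, c ≠ 2 → y c ∈ XX := by
      intro c hc i k hik hi hk
      simp only [y] at hi hk
      split_ifs at hi hk with h1 h2
      · exact x.2 i k hik hi hk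
      · exact absurd hk hc
      · omega
      · exact absurd hi hc
    have h0 := hL ⟨y 0, hy 0 (by decide)⟩ (fun i hi => if_pos hi)
    have h1 := hL ⟨y 1, hy 1 (by decide)⟩ (fun i hi => if_pos hi)
    rw [mem_singleton_iff] at h0 h1
    have h2 := congrArg (fun z : XX => z.1 L) (h0.trans h1.symm)
    simp [y] at h2
  · intro x
    refine ⟨⟨fun i => match i with
      | 0 => 0
      | i + 1 => x.1 i, ?_⟩, rfl⟩
    intro i k hik hi hk
    cases k with
    | zero => omega
    | succ k =>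
      cases i with
      | zero =>
        change (0 : Fin 3) = 2 at hi
        exact absurd hi (by decide)
      | succ i =>
        have := x.2 i k (by omega) hi hk
        rwa [show k + 1 - (i + 1) = k - i by omega]
  · intro y hy
    apply not_omega y
    · rw [← hy]; exact mem_omegaN 0 _ (Or.inl rfl)
    · rw [← hy]; exact mem_omegaN 1 _ (Or.inr rfl)
    · intro z hz
      rw [← hy] at hz
      exact omegaN_sub hz

end Pool.Agent.Results.MP_8a65de_an.NotOmegaLimit
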